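import Pool.Agent.K1H69.DC.Disc

/-!
# Finiteness of integral points and entire curves with a dynamical symmetry

Let `V` be any scheme over the integers of a number field `K`, `V'` a closed subscheme of `V`, and
suppose that condition (ii) of the Bombieri-Lang-Vojta conjecture holds: only finitely many
`S`-integral points of `V` lie outside of `V'`, for all finite extensions of `K` and all finite `S`.
Then every dynamical point of `V(ℂ)` lies on `V'(ℂ)`, and every entire curve in `V(ℂ)` which passes
through dynamical points at arguments which accumulate lies in `V'(ℂ)`.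

A point is dynamical if it is a value of a nonconstant holomorphic map `h` from a connected domain
of the plane to `V(ℂ)` such that near some point `z0` of the domain `h = π ∘ g`, `g ∘ a = φ ∘ g`,
with morphisms `π : Y ⟶ V`, `φ : Y ⟶ Y` of schemes, a germ `g` of a holomorphic map to `Y(ℂ)`
at `z0`, and a germ `a` of a holomorphic function which fixes `z0` with a multiplier which is
neither zero nor a root of unity.
-/

set_option autoImplicit false

namespace Pool.Agent.Results.MP_e97a4d_nt.DynamicalCurves

open AlgebraicGeometry CategoryTheory Topology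
open Pool.Agent.K1H69.DC (HolAt IntegralFinite strC DynPoint)
open scoped NumberField

/-- An entire curve in `V(ℂ)`: a nonconstant holomorphic map from `ℂ` to the complex points of `V`
over the integers of `K`. -/
def EntireCurve {K : Type} [Field K] [NumberField K] (σ : K →+* ℂ) {V : Scheme.{0}}
    (sV : V ⟶ Spec (CommRingCat.of (𝓞 K))) (f : ℂ → (Spec (CommRingCat.of ℂ) ⟶ V)) : Prop :=
  (∀ z, f z ≫ sV = Spec.map (strC σ)) ∧ (∀ z, HolAt f z) ∧ ∃ z z', f z ≠ f z'

theorem result {K : Type} [Field K] [NumberField K] (σ : K →+* ℂ) {V V' : Scheme.{0}}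
    (sV : V ⟶ Spec (CommRingCat.of (𝓞 K))) (i : V' ⟶ V) [IsClosedImmersion i]
    (hfin : IntegralFinite sV i) (f : ℂ → (Spec (CommRingCat.of ℂ) ⟶ V))
    (hf : EntireCurve σ sV f) (hdyn : ∃ z1, ∃ᶠ z in 𝓝[≠] z1, DynPoint σ sV (f z)) :
    ∀ z, ∃ Q : Spec (CommRingCat.of ℂ) ⟶ V', Q ≫ i = f z :=
  Pool.Agent.K1H69.DC.entire_dyn σ sV i hfin f hf.2.1 hdyn

end Pool.Agent.Results.MP_e97a4d_nt.DynamicalCurves
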