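import Pool.Agent.K1H69.DC.Open

/-!
# Entire curves with a rational dynamical symmetry in proper varieties

Let `V` be a scheme over the integers of a number field `K` which is proper over a nonempty open
subset of the spectrum of the integers, `V'` a closed subscheme, and suppose that condition (ii) of
the Bombieri-Lang-Vojta conjecture holds. Then every rationally dynamical point of `V(ℂ)` lies on
`V'(ℂ)`, and every entire curve in `V(ℂ)` which passes through rationally dynamical points at
arguments which accumulate lies in `V'(ℂ)`.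

Here the dynamics are rational: `φ` and `π` are only defined on an open subscheme `U` of `Y`
which contains the fixed point.
-/

set_option autoImplicit false

namespace Pool.Agent.Results.MP_e97a4d_nt.RationalDynamics

open AlgebraicGeometry CategoryTheory Topology
open Pool.Agent.K1H69.DC (HolAt IntegralFinite strC RatDynPoint)
open scoped NumberField

/-- An entire curve in `V(ℂ)`: a nonconstant holomorphic map from `ℂ` to the complex points of `V`
over the integers of `K`. -/
def EntireCurve {K : Type} [Field K] [NumberField K] (σ : K →+* ℂ) {V : Scheme.{0}}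
    (sV : V ⟶ Spec (CommRingCat.of (𝓞 K))) (f : ℂ → (Spec (CommRingCat.of ℂ) ⟶ V)) : Prop :=
  (∀ z, f z ≫ sV = Spec.map (strC σ)) ∧ (∀ z, HolAt f z) ∧ ∃ z z', f z ≠ f z'

theorem result {K : Type} [Field K] [NumberField K] (σ : K →+* ℂ) {V V' : Scheme.{0}}
    (sV : V ⟶ Spec (CommRingCat.of (𝓞 K))) (N : 𝓞 K) (hN : N ≠ 0)
    (hp : IsProper (sV ∣_ (PrimeSpectrum.basicOpen N : (Spec (CommRingCat.of (𝓞 K))).Opens)))
    (i : V' ⟶ V) [IsClosedImmersion i] (hfin : IntegralFinite sV i)
    (f : ℂ → (Spec (CommRingCat.of ℂ) ⟶ V)) (hf : EntireCurve σ sV f)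
    (hdyn : ∃ z1, ∃ᶠ z in 𝓝[≠] z1, RatDynPoint σ sV (f z)) :
    ∀ z, ∃ Q : Spec (CommRingCat.of ℂ) ⟶ V', Q ≫ i = f z :=
  Pool.Agent.K1H69.DC.entire_rdyn σ sV i
    (Pool.Agent.K1H69.DC.rational_of_integral_open sV N hN hp i hfin) f hf.2.1 hdyn

end Pool.Agent.Results.MP_e97a4d_nt.RationalDynamics
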