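import Pool.Agent.K1H83.BL.UQ

/-!
The Bombieri-Lang-Vojta equivalence for the curves and points whose coordinates are quotients of
sums of units.
-/

set_option autoImplicit false

namespace Pool.Agent.Results.MP_e97a4d_nt.UnitFieldEquivalence

open MvPolynomial Pool.Agent.K1H83.BL.Defs
open scoped NumberField

/-- Let `V` be any affine scheme of finite type over `𝓞 K`, given by finitely many equations, and
let `V'` be the closed subscheme of `V` given by the further equations `G`. The following are
equivalent.

* Every entire curve in `V` lies in `V'`, if its coordinates are quotients of finite sums of entire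
functions without zeros.
* Every nonconstant morphism from the punctured line to `V` has its image in `V'`.
* For all finite extensions `L` of `K`, all finite sets `S` of places of `L`, and all `r`, there
are only finitely many `S`-integral points of `V` outside `V'` whose coordinates are quotients of
two sums of at most `r` `S`-units. -/
theorem result {K : Type} [Field K] [NumberField K] (σ : K →+* ℂ) {n : ℕ}
    (V : Finset (MvPolynomial (Fin n) (𝓞 K))) (G : Set (MvPolynomial (Fin n) (𝓞 K))) :
    List.TFAE [UnitCurvesIn σ V G, GmCurvesIn σ V G,
      FinitelyManyUnitPoints (V : Set (MvPolynomial (Fin n) (𝓞 K))) G] :=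
  Pool.Agent.K1H83.BL.UQ.tfae σ V G

end Pool.Agent.Results.MP_e97a4d_nt.UnitFieldEquivalence
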