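import Pool.Agent.K1H83.BL.Wrap

/-!
The Bombieri-Lang-Vojta equivalence when invertible functions on finitely many closed subvarieties
separate the points.
-/

set_option autoImplicit false

namespace Pool.Agent.Results.MP_e97a4d_nt.UnitsSeparatePoints

open MvPolynomial Pool.Agent.K1H83.BL.Defs
open scoped NumberField

/-- Let `V` be an affine scheme of finite type over `𝓞 K`, given by finitely many equations, and
let `V'` be the closed subscheme of `V` given by the further equations `G`. Let `T` be a finite set
of closed subschemes of `V`, each with finitely many functions which have no zeros on it. Assume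
that every complex point of `V` outside `V'` lies on the image of a nonconstant morphism from the
punctured line to `V`, or lies on some member of `T` and is determined, among the points of this
member, by the values of its functions. Then the following are equivalent: every entire curve in
`V` lies in `V'`; every nonconstant morphism from the punctured line to `V` has its image in `V'`;
for all finite extensions `L` of `K` and all finite sets `S` of places of `L`, `V` has only
finitely many `S`-integral points over `L` outside `V'`. -/
theorem result {K : Type} [Field K] [NumberField K] (σ : K →+* ℂ) {n : ℕ}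
    (V : Finset (MvPolynomial (Fin n) (𝓞 K))) (G : Set (MvPolynomial (Fin n) (𝓞 K)))
    (T : Finset (Stratum K n)) (hT : ∀ s ∈ T, s.Invertible σ V)
    (hsep : ∀ z ∈ cpts σ (V : Set (MvPolynomial (Fin n) (𝓞 K))), z ∉ cpts σ G →
      (∃ v, IsGmCurve σ V v ∧ ∃ t, t ≠ 0 ∧ v t = z) ∨ ∃ s ∈ T, s.Separates σ V z) :
    List.TFAE [EntireCurvesIn σ V G, GmCurvesIn σ V G,
      FinitelyManyIntegral (V : Set (MvPolynomial (Fin n) (𝓞 K))) G] :=
  Pool.Agent.K1H83.BL.Wrap.tfae σ V G T hT hsep

end Pool.Agent.Results.MP_e97a4d_nt.UnitsSeparatePoints
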